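import Mathlib
import Pool.Agent.Helper34.KreinMore

set_option autoImplicit false

open MeasureTheory

namespace Pool.Agent.Results.MP_410e25_an.Decomp

/-- The symmetric open interval `(-A, A)`, for `A` in `(0, ∞]`. -/
def band (A : ENNReal) : Set ℝ := {x : ℝ | ENNReal.ofReal |x| < A}

/-- Value at `t` of the almost periodic polynomial `∑ c_x e^{i x t}` (finite sum). -/
noncomputable def apEval (c : ℝ →₀ ℂ) (t : ℝ) : ℂ :=
  ∑ x ∈ c.support, c x * Complex.exp (Complex.I * (x : ℂ) * (t : ℂ))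

/-- The functional `Φ_f`, sending `∑ c_x e_x` to `∑ c_x f(x)`. -/
noncomputable def functional (f : ℝ → ℂ) (c : ℝ →₀ ℂ) : ℂ :=
  ∑ x ∈ c.support, c x * f x

/-- `f` restricted to `(-A, A)` belongs to `R_A`: the functional `Φ_f` is bounded for the sup norm
on almost periodic polynomials with exponents in `(-A, A)`. -/
def MemR (A : ENNReal) (f : ℝ → ℂ) : Prop :=
  ∃ C : ℝ, ∀ c : ℝ →₀ ℂ, (∀ x ∈ c.support, x ∈ band A) →
    ∀ M : ℝ, (∀ t : ℝ, ‖apEval c t‖ ≤ M) → ‖functional f c‖ ≤ C * M

/-- Sanity: `(-A, A)` is the usual interval for finite `A` and the line for `A = ∞`. -/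
lemma band_ofReal (A : ℝ) : band (ENNReal.ofReal A) = Set.Ioo (-A) A := by
  ext x
  simp only [band, Set.mem_ofPred_eq, Set.mem_Ioo]
  rw [ENNReal.ofReal_lt_ofReal_iff', abs_lt]
  constructor
  · rintro ⟨h, -⟩
    exact h
  · intro h
    exact ⟨h, by linarith [h.1, h.2]⟩

lemma band_top : band ⊤ = Set.univ := by
  ext x
  simp [band]

lemma isOpen_band (A : ENNReal) : IsOpen (band A) := by
  have h : Continuous fun x : ℝ => ENNReal.ofReal |x| :=
    ENNReal.continuous_ofReal.comp continuous_abs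
  exact isOpen_lt h continuous_const

open Pool.Agent.Helper34.Krein in
lemma memR_of_inner {H : Type} [NormedAddCommGroup H] [InnerProductSpace ℂ H]
    {π : ℝ → H →ₗᵢ[ℂ] H}
    (hb : ∀ h : ℝ →₀ ℂ, ∀ M : ℝ, (∀ t, ‖ap h t‖ ≤ M) → ∀ w : H,
        ‖h.sum fun x a => a • π x w‖ ≤ M * ‖w‖) (v w : H) (A : ENNReal) :
    MemR A (fun x => inner ℂ v (π x w)) := by
  refine ⟨‖v‖ * ‖w‖, fun c _ M hM => ?_⟩
  have h1 := norm_Phi_coeff_le hb v w c M (by
    intro t
    rw [ap_apply]
    exact hM t)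
  rw [Phi_apply] at h1
  exact h1

open Pool.Agent.Helper34.Krein in
/-- Every measurable `f` in `R_A` is `f_c + f_m` with `f_c` in `R_A` continuous and `f_m` in `R_A`
measurable and zero almost everywhere. -/
theorem result (A : ENNReal) (_ : 0 < A) (f : ℝ → ℂ) (hf : MemR A f)
    (hfm : AEMeasurable f (volume.restrict (band A))) :
    ∃ fc fm : ℝ → ℂ, (∀ x ∈ band A, f x = fc x + fm x) ∧
      MemR A fc ∧ ContinuousOn fc (band A) ∧
      MemR A fm ∧ AEMeasurable fm (volume.restrict (band A)) ∧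
      ∀ᵐ x ∂(volume.restrict (band A)), fm x = 0 := by
  obtain ⟨C, hC⟩ := hf
  obtain ⟨H, i1, i2, i3, π, u, v, hπ, hb, hu, hv, hrep⟩ := exists_rep (band A) f C (by
      intro h hh M hM
      rw [Phi_apply]
      refine hC h ?_ M ?_
      · intro x hx
        exact (Finsupp.mem_supported ℂ h).1 hh hx
      · intro t
        have := hM t
        rw [ap_apply] at this
        exact this)
  have hF : AEStronglyMeasurable (fun l : ℝ => inner ℂ v (π l u)) (volume.restrict (band A)) := by
    refine hfm.aestronglyMeasurable.congr ?_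
    filter_upwards [self_mem_ae_restrict (isOpen_band A).measurableSet] with x hx
    exact hrep x hx
  obtain ⟨uc, u0, u2, hsum, hc, h0, hnorm, hz⟩ := hπ.decomposition u v (isOpen_band A) hF
  have h0ae : ∀ᵐ x : ℝ, (inner ℂ v (π x u0) : ℂ) = 0 := h0 v
  refine ⟨fun x => inner ℂ v (π x uc), fun x => inner ℂ v (π x u0), ?_,
    memR_of_inner hb v uc A, ?_, memR_of_inner hb v u0 A, ?_, ae_restrict_of_ae h0ae⟩
  · intro x hx
    rw [hrep x hx, hsum, map_add (π x) (uc + u0) u2, map_add (π x) uc u0, inner_add_right,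
      inner_add_right, hz x hx, add_zero]
  · have h3 : Continuous fun l : ℝ => π l uc := hc
    exact (continuous_const.inner h3).continuousOn
  · have h4 : (fun x : ℝ => (inner ℂ v (π x u0) : ℂ)) =ᵐ[volume] fun _ => (0 : ℂ) := h0ae
    exact (aemeasurable_const.congr h4.symm).restrict

end Pool.Agent.Results.MP_410e25_an.Decomp
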